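import Pool.Agent.Lib_helper98.WSF.TOP

/-!
# Selberg's theorem in the weight aspect

There are absolute constants `c, C > 0` and `k₀` such that for EVERY even weight `k ≥ k₀`, every
interval `[α, β]` contained in `[-c√k, c√k]` and all `0 < H ≤ 1`, `H ≤ h ≤ β - α`: for all but at
most the proportion `C √((β - α) / (h H log k))` of the normalised Hecke eigenforms `f` of weight
`k` for `SL₂(ℤ)` (there are finitely many and at least `k/24` of them), the completed `L`-function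
`Λ(s, f)` is entire and every interval `(x, x + h)` contained in `[α, β]` contains the ordinates of
more than `h / H` zeros of odd order on the line `Re s = 1/2`, and these are at least the proportion
`min(h, 1) / (C H log k)` of ALL zeros `ρ` of `Λ(s, f)` with `x < Im ρ < x + h`, counted with
multiplicity.

With `H = A / log k`: a positive proportion `c_A` of the low zeros (up to height `c √k`) of all but a
proportion `C / √A` of the eigenforms of each large weight lie on the critical line.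
-/

namespace Pool.Agent.Lib_helper45.Superseded.WeightSelberg

open Complex
open scoped MatrixGroups ENNReal

/-- The Fourier coefficients `a(n)` of a cusp form of weight `k` for `SL₂(ℤ)`. -/
noncomputable def coeff {k : ℕ} (f : CuspForm 𝒮ℒ (k : ℤ)) (n : ℕ) : ℂ :=
  (UpperHalfPlane.qExpansion 1 f).coeff n

/-- `f` is a normalised Hecke eigenform of weight `k` for `SL₂(ℤ)`. -/
structure IsEigenform {k : ℕ} (f : CuspForm 𝒮ℒ (k : ℤ)) : Prop where
  one : coeff f 1 = 1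
  mul : ∀ m n : ℕ, m.Coprime n → coeff f (m * n) = coeff f m * coeff f n
  hecke : ∀ p r : ℕ, p.Prime → coeff f (p ^ (r + 2)) =
    coeff f p * coeff f (p ^ (r + 1)) - (p : ℂ) ^ (k - 1) * coeff f (p ^ r)

/-- `Λ` is the completed `L`-function `Λ(s, f)`: it is entire, and for `Re s > 3/2` it equals
`Γ_ℝ(s + (k-1)/2) Γ_ℝ(s + (k+1)/2) ∑ₙ a(n) n^{-(s + (k-1)/2)}`. -/
def IsLambda {k : ℕ} (f : CuspForm 𝒮ℒ (k : ℤ)) (Λ : ℂ → ℂ) : Prop :=
  Differentiable ℂ Λ ∧ ∀ s : ℂ, 3 / 2 < s.re →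
    HasSum (fun n : ℕ => Gammaℝ (s + ((k : ℂ) - 1) / 2) * Gammaℝ (s + ((k : ℂ) + 1) / 2) *
      (coeff f n / (n : ℂ) ^ (s + ((k : ℂ) - 1) / 2))) (Λ s)

/-- The number of `t` with `a < t < b` such that `1/2 + it` is a zero of odd order of `Λ`. -/
noncomputable def oddCrit (Λ : ℂ → ℂ) (a b : ℝ) : ℝ≥0∞ :=
  ({t : ℝ | a < t ∧ t < b ∧ Odd (analyticOrderNatAt Λ (1 / 2 + t * I))}.encard : ℝ≥0∞)

/-- The number of all zeros `ρ` of `Λ` with `a < Im ρ < b`, counted with multiplicity. -/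
noncomputable def allZer (Λ : ℂ → ℂ) (a b : ℝ) : ℝ≥0∞ :=
  ∑' ρ : {ρ : ℂ // a < ρ.im ∧ ρ.im < b}, (analyticOrderNatAt Λ ρ.1 : ℝ≥0∞)

/-- Every interval `(x, x + h)` in `[α, β]` contains more than `h / H` ordinates of zeros of odd
order of `Λ(s, f)` on the critical line, at least `min(h, 1) / (C H log k)` times the number of all
zeros of `Λ(s, f)` with ordinates in the interval. -/
def Good (C α β h H : ℝ) {k : ℕ} (f : CuspForm 𝒮ℒ (k : ℤ)) : Prop :=
  ∃ Λ : ℂ → ℂ, IsLambda f Λ ∧ ∀ x : ℝ, α ≤ x → x + h ≤ β →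
    ENNReal.ofReal (h / H) < oddCrit Λ x (x + h) ∧
    ENNReal.ofReal (min h 1 / (C * H * Real.log k)) * allZer Λ x (x + h) ≤ oddCrit Λ x (x + h)

theorem result : ∃ (c C : ℝ) (k₀ : ℕ), 0 < c ∧ 0 < C ∧ ∀ k : ℕ, k₀ ≤ k → Even k →
    {f : CuspForm 𝒮ℒ (k : ℤ) | IsEigenform f}.Finite ∧
    (k : ℝ) / 24 ≤ {f : CuspForm 𝒮ℒ (k : ℤ) | IsEigenform f}.ncard ∧
    ∀ α β h H : ℝ, -(c * √k) ≤ α → β ≤ c * √k → 0 < H → H ≤ 1 → H ≤ h → h ≤ β - α →
      ({f : CuspForm 𝒮ℒ (k : ℤ) | IsEigenform f ∧ ¬ Good C α β h H f}.ncard : ℝ) ≤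
        C * √((β - α) / (h * H * Real.log k)) *
          {f : CuspForm 𝒮ℒ (k : ℤ) | IsEigenform f}.ncard := by
  obtain ⟨c, C, k₀, hc, hC, hk₀⟩ := Pool.Agent.WS.ws_top
  refine ⟨c, C, k₀ + 1, hc, hC, fun k hk he => ?_⟩
  have hkpos : 0 < k := by omega
  obtain ⟨h1, h2, h3⟩ := hk₀ k (by omega) he
  have e1 : {f : CuspForm 𝒮ℒ (k : ℤ) | IsEigenform f} =
      {f : CuspForm 𝒮ℒ (k : ℤ) | Pool.Agent.WA.Eig f} := by
    ext f
    exact ⟨fun hf => ⟨hf.one, hf.mul, hf.hecke⟩, fun hf => ⟨hf.one, hf.mul, hf.hecke⟩⟩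
  rw [e1]
  refine ⟨h1, h2, fun α β h H ha hb hH hH1 hHh hba => ?_⟩
  refine le_trans ?_ (h3 α β h H ha hb hH hH1 hHh hba)
  have e2 : {f : CuspForm 𝒮ℒ (k : ℤ) | IsEigenform f ∧ ¬ Good C α β h H f} ⊆
      {f : CuspForm 𝒮ℒ (k : ℤ) | Pool.Agent.WA.Eig f ∧
        ¬ Pool.Agent.WS.TGood k (fun n => (Pool.Agent.WA.co f n).re) C α β h H} := by
    rintro f ⟨hf, hb⟩
    have hE : Pool.Agent.WA.Eig f := ⟨hf.one, hf.mul, hf.hecke⟩
    refine ⟨hE, fun ⟨Λ, hΛ, hx⟩ => hb ⟨Λ, ⟨hΛ.1, fun s hs => ?_⟩, hx⟩⟩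
    have h4 := hΛ.2 s hs
    have h5 : ∀ n : ℕ, (((Pool.Agent.WA.co f n).re : ℝ) : ℂ) = coeff f n :=
      fun n => (Pool.Agent.WA.eig_data hkpos hE).2 n
    simpa only [h5] using h4
  exact_mod_cast Set.ncard_le_ncard e2 (h1.subset fun f hf => hf.1)

end Pool.Agent.Lib_helper45.Superseded.WeightSelberg
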